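import Pool.Agent.Helper59.SAT.Cl

/-!
# Determinant sums for satisfiability: the gadget for `k`-SAT, `k ≥ 3` fixed (MP_b6562f_lc)
-/

set_option autoImplicit false

namespace Pool.Agent.Helper41.SAT

open Finset Pool.SatDet

/-! ### clauses -/

section clauses

variable {n k : ℕ}

theorem viol_vcl (a a' : Fin n → Bool) (T : Finset (Fin n)) (hT : T.card = k) :
    ¬ Sats a (vcl a' T hT) ↔ ∀ i ∈ T, a i = a' i := by
  rw [sats_vcl_iff]
  push Not
  rfl

theorem vcl_eq {a a' : Fin n → Bool} {T T' : Finset (Fin n)} {hT : T.card = k}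
    {hT' : T'.card = k} (h : vcl a T hT = vcl a' T' hT') : T = T' ∧ ∀ i ∈ T, a i = a' i := by
  have h1 : T = T' := by
    rw [← supp_vcl a T hT, h, supp_vcl]
  refine ⟨h1, ?_⟩
  have h3 : ¬ Sats a (vcl a' T' hT') := by
    rw [← h]
    exact not_sats_vcl a T hT
  rw [viol_vcl] at h3
  rw [h1]
  exact h3

end clauses

/-! ### the gadget -/

section gadget

variable {k d D l L R n : ℕ}

/-- The Boolean variables: one-hot variables, ladder variables, copies of the bits, dummies. -/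
abbrev Gv (D l L R : ℕ) : Type :=
  ((Fin D × Bool) × (Fin l → Bool)) ⊕ (((Fin D × Bool) × Fin (2 ^ l)) ⊕
    ((((Fin D × Bool) × Fin l) × Fin L) ⊕ Fin R))

noncomputable instance : DecidableEq (Gv D l L R) := Classical.decEq _

theorem card_Gv : Fintype.card (Gv D l L R) = 2 * D * (2 * 2 ^ l + l * L) + R := by
  simp only [Fintype.card_sum, Fintype.card_prod, Fintype.card_fin, Fintype.card_bool,
    Fintype.card_fun]
  ring

/-- The enumeration of the words. -/
noncomputable def idx (l : ℕ) : (Fin l → Bool) ≃ Fin (2 ^ l) := Fintype.equivOfCardEq (by simp)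

/-- The assignment of the choice `c`. -/
noncomputable def val (c : Fin D × Bool → Fin l → Bool) : Gv D l L R → Bool
  | Sum.inl (h, α) => decide (α = c h)
  | Sum.inr (Sum.inl (h, j)) => decide (j ≤ idx l (c h))
  | Sum.inr (Sum.inr (Sum.inl ((h, i), _))) => c h i
  | Sum.inr (Sum.inr (Sum.inr _)) => false

/-- The pattern of the variable clauses. -/
def pat (e : Bool) : Gv D l L R → Bool
  | Sum.inl _ => true
  | Sum.inr (Sum.inl _) => true
  | Sum.inr (Sum.inr (Sum.inl _)) => e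
  | Sum.inr (Sum.inr (Sum.inr _)) => false

/-- The dummies. -/
def zemb : Fin R ↪ Gv D l L R :=
  ⟨fun j => Sum.inr (Sum.inr (Sum.inr j)), fun i j h => by simpa using h⟩

/-- The variables of the monomial clauses. -/
noncomputable def TX (h : Fin D × Bool) (i : Fin l) (t : Fin L) (P : Finset (Fin R)) : Finset (Gv D l L R) :=
  insert (Sum.inr (Sum.inr (Sum.inl ((h, i), t))) : Gv D l L R) (P.map zemb)

/-- The variables of the derivative clauses. -/
noncomputable def TY (b : Fin D) (α α' : Fin l → Bool) (P : Finset (Fin R)) : Finset (Gv D l L R) :=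
  insert (Sum.inl ((b, false), α) : Gv D l L R)
    (insert (Sum.inl ((b, true), α') : Gv D l L R) (P.map zemb))

theorem card_TX (h : Fin D × Bool) (i : Fin l) (t : Fin L) (P : Finset (Fin R)) :
    (TX h i t P).card = P.card + 1 := by
  rw [TX, Finset.card_insert_of_notMem, Finset.card_map]
  simp [zemb]

theorem card_TY (b : Fin D) (α α' : Fin l → Bool) (P : Finset (Fin R)) :
    (TY (L := L) b α α' P).card = P.card + 2 := by
  rw [TY, Finset.card_insert_of_notMem, Finset.card_insert_of_notMem, Finset.card_map]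
  · simp [zemb]
  · simp [zemb]

theorem mem_TX_z {h : Fin D × Bool} {i : Fin l} {t : Fin L} {P : Finset (Fin R)} {j : Fin R} :
    Sum.inr (Sum.inr (Sum.inr j)) ∈ TX h i t P ↔ j ∈ P := by
  simp [TX, zemb]

theorem mem_TX_w {h h' : Fin D × Bool} {i i' : Fin l} {t t' : Fin L} {P : Finset (Fin R)} :
    Sum.inr (Sum.inr (Sum.inl ((h', i'), t'))) ∈ TX h i t P ↔ h' = h ∧ i' = i ∧ t' = t := by
  simp [TX, zemb, and_assoc]

theorem mem_TX_u {h : Fin D × Bool} {i : Fin l} {t : Fin L} {P : Finset (Fin R)}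
    {x : (Fin D × Bool) × (Fin l → Bool)} : Sum.inl x ∉ TX h i t P := by
  simp [TX, zemb]

theorem mem_TY_u {b : Fin D} {α α' : Fin l → Bool} {P : Finset (Fin R)}
    {x : (Fin D × Bool) × (Fin l → Bool)} :
    Sum.inl x ∈ TY (L := L) b α α' P ↔ x = ((b, false), α) ∨ x = ((b, true), α') := by
  simp [TY, zemb]

/-- The clause on the gadget variables `T`, violated by `a`. -/
def gcl (ε : Gv D l L R ≃ Fin n) (a : Gv D l L R → Bool) (T : Finset (Gv D l L R))
    (hT : T.card = k) : Clause n k :=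
  vcl (fun x => a (ε.symm x)) (T.map ε.toEmbedding) (by rw [Finset.card_map]; exact hT)

theorem viol_gcl (ε : Gv D l L R ≃ Fin n) (a : Fin n → Bool) (a' : Gv D l L R → Bool)
    (T : Finset (Gv D l L R)) (hT : T.card = k) :
    ¬ Sats a (gcl ε a' T hT) ↔ ∀ x ∈ T, a (ε x) = a' x := by
  rw [gcl, viol_vcl]
  constructor
  · intro h x hx
    have := h (ε x) (Finset.mem_map_of_mem _ hx)
    rwa [Equiv.symm_apply_apply] at this
  · intro h x hx
    obtain ⟨y, hy, rfl⟩ := Finset.mem_map.1 hx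
    have := h y hy
    simpa using this

theorem gcl_eq {ε : Gv D l L R ≃ Fin n} {a a' : Gv D l L R → Bool} {T T' : Finset (Gv D l L R)}
    {hT : T.card = k} {hT' : T'.card = k} (h : gcl ε a T hT = gcl ε a' T' hT') :
    T = T' ∧ ∀ x ∈ T, a x = a' x := by
  obtain ⟨h1, h2⟩ := vcl_eq h
  have h3 : T = T' := Finset.map_injective _ h1
  refine ⟨h3, fun x hx => ?_⟩
  have := h2 (ε x) (Finset.mem_map_of_mem _ hx)
  simpa using this

theorem gcl_congr {ε : Gv D l L R ≃ Fin n} {a a' : Gv D l L R → Bool} {T : Finset (Gv D l L R)}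
    (hT : T.card = k) (h : ∀ x ∈ T, a x = a' x) : gcl ε a T hT = gcl ε a' T hT := by
  refine vcl_congr _ fun x hx => ?_
  obtain ⟨y, hy, rfl⟩ := Finset.mem_map.1 hx
  simpa using h y hy

/-- The index set of the copies. -/
noncomputable def psi (L R d : ℕ) :
    Fin (L * R.choose (d + 1)) ≃ Fin L × {P : Finset (Fin R) // P.card = d + 1} :=
  Fintype.equivOfCardEq (by simp)

/-- The monomial variables. -/
noncomputable def Xg (ε : Gv D l L R ≃ Fin n) :
    ((Fin D × Bool) × Fin l) × (Bool × Fin (L * R.choose (d + 1))) → Clause n (d + 2) :=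
  fun x => gcl ε (pat x.2.1) (TX x.1.1 x.1.2 (psi L R d x.2.2).1 (psi L R d x.2.2).2.1)
    (by rw [card_TX, (psi L R d x.2.2).2.2])

/-- The derivative variables. -/
noncomputable def Yg (ε : Gv D l L R ≃ Fin n) (P0 : Finset (Fin R)) (hP0 : P0.card = d) :
    Fin D × (Fin l → Bool) × (Fin l → Bool) → Clause n (d + 2) :=
  fun y => gcl ε (pat false) (TY y.1 y.2.1 y.2.2 P0) (by rw [card_TY, hP0])

/-- The assignment of a choice. -/
noncomputable def ac (ε : Gv D l L R ≃ Fin n) (c : Fin D × Bool → Fin l → Bool) : Fin n → Bool :=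
  fun x => val c (ε.symm x)

theorem viol_ac_gcl (ε : Gv D l L R ≃ Fin n) (c : Fin D × Bool → Fin l → Bool)
    (a' : Gv D l L R → Bool) (T : Finset (Gv D l L R)) (hT : T.card = k) :
    ¬ Sats (ac ε c) (gcl ε a' T hT) ↔ ∀ x ∈ T, val c x = a' x := by
  rw [viol_gcl]
  simp [ac]

/-- `a_c` violates `X` iff the bit is right. -/
theorem viol_X (ε : Gv D l L R ≃ Fin n) (c : Fin D × Bool → Fin l → Bool) (h : Fin D × Bool)
    (i : Fin l) (e : Bool) (s : Fin (L * R.choose (d + 1))) :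
    ¬ Sats (ac ε c) (Xg (d := d) ε ((h, i), (e, s))) ↔ e = c h i := by
  rw [Xg, viol_ac_gcl]
  constructor
  · intro H
    have := H (Sum.inr (Sum.inr (Sum.inl ((h, i), (psi L R d s).1))))
      (mem_TX_w.2 ⟨rfl, rfl, rfl⟩)
    simpa [val, pat] using this.symm
  · rintro rfl x hx
    rw [TX, Finset.mem_insert, Finset.mem_map] at hx
    rcases hx with rfl | ⟨j, -, rfl⟩
    · rfl
    · rfl

theorem viol_Y (ε : Gv D l L R ≃ Fin n) (P0 : Finset (Fin R)) (hP0 : P0.card = d)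
    (c : Fin D × Bool → Fin l → Bool) (b : Fin D) (α α' : Fin l → Bool) :
    ¬ Sats (ac ε c) (Yg ε P0 hP0 (b, α, α')) ↔ α = c (b, false) ∧ α' = c (b, true) := by
  rw [Yg, viol_ac_gcl]
  constructor
  · intro H
    have h1 := H (Sum.inl ((b, false), α)) (mem_TY_u.2 (Or.inl rfl))
    have h2 := H (Sum.inl ((b, true), α')) (mem_TY_u.2 (Or.inr rfl))
    simpa [val, pat] using And.intro h1 h2
  · rintro ⟨rfl, rfl⟩ x hx
    rw [TY, Finset.mem_insert, Finset.mem_insert, Finset.mem_map] at hx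
    rcases hx with rfl | rfl | ⟨j, -, rfl⟩
    · simp [val, pat]
    · simp [val, pat]
    · rfl

theorem inj_XY (ε : Gv D l L R ≃ Fin n) (P0 : Finset (Fin R)) (hP0 : P0.card = d) :
    Function.Injective (Sum.elim (Xg (d := d) ε) (Yg ε P0 hP0)) := by
  rintro (⟨⟨h, i⟩, e, s⟩ | ⟨b, α, α'⟩) (⟨⟨h', i'⟩, e', s'⟩ | ⟨b', β, β'⟩) H <;>
    simp only [Sum.elim_inl, Sum.elim_inr, Xg, Yg] at H
  · obtain ⟨h1, h2⟩ := gcl_eq H
    have h3 : Sum.inr (Sum.inr (Sum.inl ((h, i), (psi L R d s).1))) ∈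
        TX h i (psi L R d s).1 (psi L R d s).2.1 := mem_TX_w.2 ⟨rfl, rfl, rfl⟩
    have h4 := h2 _ h3
    simp only [pat] at h4
    have h5 := h3
    rw [h1] at h5
    obtain ⟨rfl, rfl, h6⟩ := mem_TX_w.1 h5
    subst h4
    have h7 : (psi L R d s).2.1 = (psi L R d s').2.1 := by
      ext j
      rw [← mem_TX_z (h := h) (i := i) (t := (psi L R d s).1), h1, mem_TX_z]
    have h8 : psi L R d s = psi L R d s' := Prod.ext h6 (Subtype.ext h7)
    rw [(psi L R d).injective h8]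
  · obtain ⟨h1, -⟩ := gcl_eq H
    have h3 : (Sum.inl ((b', false), β) : Gv D l L R) ∈ TY b' β β' P0 := mem_TY_u.2 (Or.inl rfl)
    rw [← h1] at h3
    exact absurd h3 mem_TX_u
  · obtain ⟨h1, -⟩ := gcl_eq H
    have h3 : (Sum.inl ((b, false), α) : Gv D l L R) ∈ TY b α α' P0 := mem_TY_u.2 (Or.inl rfl)
    rw [h1] at h3
    exact absurd h3 mem_TX_u
  · obtain ⟨h1, -⟩ := gcl_eq H
    have h3 : (Sum.inl ((b, false), α) : Gv D l L R) ∈ TY b α α' P0 := mem_TY_u.2 (Or.inl rfl)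
    have h4 : (Sum.inl ((b, true), α') : Gv D l L R) ∈ TY b α α' P0 := mem_TY_u.2 (Or.inr rfl)
    rw [h1, mem_TY_u] at h3 h4
    simp only [Prod.mk.injEq, Bool.false_eq_true, and_false, false_and, or_false, and_true,
      Bool.true_eq_false, false_or] at h3 h4
    obtain ⟨rfl, rfl⟩ := h3
    obtain ⟨-, rfl⟩ := h4
    rfl

/-- The free clauses: violated by the assignment of some choice. -/
noncomputable def Zg (ε : Gv D l L R ≃ Fin n) (P0 : Finset (Fin R))
    (hP0 : P0.card = d) : Finset (Clause n (d + 2)) :=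
  open Classical in Finset.univ.filter fun C =>
    (∃ c, ¬ Sats (ac ε c) C) ∧ (∀ x, Xg (d := d) ε x ≠ C) ∧ ∀ y, Yg ε P0 hP0 y ≠ C

theorem mem_Zg {ε : Gv D l L R ≃ Fin n} {P0 : Finset (Fin R)}
    {hP0 : P0.card = d} {C : Clause n (d + 2)} : C ∈ Zg ε P0 hP0 ↔
      (∃ c, ¬ Sats (ac ε c) C) ∧ (∀ x, Xg (d := d) ε x ≠ C) ∧ ∀ y, Yg ε P0 hP0 y ≠ C := by
  simp [Zg]

/-- Local consistency: on at most `k` variables, `a` is the assignment of some choice. -/
theorem loc (ε : Gv D l L R ≃ Fin n) (P0 : Finset (Fin R)) (hP0 : P0.card = d)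
    (hk : d + 2 ≤ Fintype.card (Gv D l L R)) (S : Finset (Clause n (d + 2)))
    (hS : ∀ e ∈ S, e ∈ Zg ε P0 hP0 ∨ (∃ x, e = Xg (d := d) ε x) ∨ ∃ y, e = Yg ε P0 hP0 y)
    (a : Fin n → Bool) (ha : ∀ C, ¬ Sats a C → C ∈ S) (T : Finset (Gv D l L R))
    (hT : T.card ≤ d + 2) : ∃ c : Fin D × Bool → Fin l → Bool, ∀ x ∈ T, a (ε x) = val c x := by
  obtain ⟨T', hTT', hT'⟩ := Finset.exists_superset_card_eq hT hk
  have h1 : gcl ε (fun x => a (ε x)) T' hT' ∈ S := by
    apply ha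
    rw [viol_gcl]
    intro x _
    rfl
  have h2 : ∃ c, ¬ Sats (ac ε c) (gcl ε (fun x => a (ε x)) T' hT') := by
    rcases hS _ h1 with h | ⟨⟨⟨h, i⟩, e, s⟩, h⟩ | ⟨⟨b, α, α'⟩, h⟩
    · exact (mem_Zg.1 h).1
    · refine ⟨fun _ _ => e, ?_⟩
      rw [h, viol_X]
    · refine ⟨fun h => if h.2 then α' else α, ?_⟩
      rw [h, viol_Y]
      simp
  obtain ⟨c, hc⟩ := h2
  refine ⟨c, fun x hx => ?_⟩
  rw [viol_ac_gcl] at hc
  exact (hc x (hTT' hx)).symm

/-- Hypothesis (i) of the machine. -/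
theorem h1_sat (ε : Gv D l L R ≃ Fin n) (P0 : Finset (Fin R)) (hP0 : P0.card = d)
    (hd : 1 ≤ d) (hk : d + 2 ≤ Fintype.card (Gv D l L R)) (c : Fin D × Bool → Fin l → Bool)
    (S : Finset (Clause n (d + 2))) (hP : ∃ a, ∀ C, ¬ Sats a C → C ∈ S)
    (hS : ∀ e ∈ S, e ∈ Zg ε P0 hP0 ∨ (∃ x, e = Xg (d := d) ε x) ∨
      ∃ b, e = Yg ε P0 hP0 (b, c (b, false), c (b, true))) :
    (∀ h i j, Xg (d := d) ε ((h, i), (c h i, j)) ∈ S) ∧
      ∀ b, Yg ε P0 hP0 (b, c (b, false), c (b, true)) ∈ S := by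
  obtain ⟨a, ha⟩ := hP
  have hS' : ∀ e ∈ S, e ∈ Zg ε P0 hP0 ∨ (∃ x, e = Xg (d := d) ε x) ∨
      ∃ y, e = Yg ε P0 hP0 y := by
    intro e he
    rcases hS e he with h | h | ⟨b, h⟩
    · exact Or.inl h
    · exact Or.inr (Or.inl h)
    · exact Or.inr (Or.inr ⟨_, h⟩)
  have hloc := loc ε P0 hP0 hk S hS' a ha
  have hloc3 : ∀ x y z : Gv D l L R, ∃ c' : Fin D × Bool → Fin l → Bool,
      a (ε x) = val c' x ∧ a (ε y) = val c' y ∧ a (ε z) = val c' z := by
    intro x y z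
    obtain ⟨c', hc'⟩ := hloc {x, y, z} (Finset.card_le_three.trans (by omega))
    exact ⟨c', hc' x (by simp), hc' y (by simp), hc' z (by simp)⟩
  -- the dummies
  have hz : ∀ j, a (ε (Sum.inr (Sum.inr (Sum.inr j)))) = false := by
    intro j
    obtain ⟨c', h1, -⟩ := hloc3 (Sum.inr (Sum.inr (Sum.inr j))) (Sum.inr (Sum.inr (Sum.inr j)))
      (Sum.inr (Sum.inr (Sum.inr j)))
    rw [h1]
    rfl
  -- the bits
  have hw : ∀ h α i t, a (ε (Sum.inl (h, α))) = true →
      a (ε (Sum.inr (Sum.inr (Sum.inl ((h, i), t))))) = α i := by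
    intro h α i t hu
    obtain ⟨c', h1, h2, -⟩ := hloc3 (Sum.inl (h, α)) (Sum.inr (Sum.inr (Sum.inl ((h, i), t))))
      (Sum.inl (h, α))
    rw [hu] at h1
    have h3 : α = c' h := by simpa [val] using h1.symm
    rw [h2, h3]
    rfl
  -- the ladder
  have hex : ∀ h, ∃ α, a (ε (Sum.inl (h, α))) = true := by
    intro h
    by_contra hcon
    push Not at hcon
    have hu : ∀ α, a (ε (Sum.inl (h, α))) = false := by
      intro α
      simpa using hcon α
    have key : ∀ (j : ℕ) (hj : j < 2 ^ l),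
        a (ε (Sum.inr (Sum.inl (h, ⟨j, hj⟩)))) = true := by
      intro j
      induction j with
      | zero =>
        intro hj
        obtain ⟨c', h1, -⟩ := hloc3 (Sum.inr (Sum.inl (h, ⟨0, hj⟩)))
          (Sum.inr (Sum.inl (h, ⟨0, hj⟩))) (Sum.inr (Sum.inl (h, ⟨0, hj⟩)))
        rw [h1]
        simp only [val, decide_eq_true_eq]
        exact Nat.zero_le _
      | succ j ih =>
        intro hj
        obtain ⟨c', h1, h2, h3⟩ := hloc3 (Sum.inr (Sum.inl (h, ⟨j, by omega⟩)))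
          (Sum.inl (h, (idx l).symm ⟨j, by omega⟩)) (Sum.inr (Sum.inl (h, ⟨j + 1, hj⟩)))
        rw [ih] at h1
        rw [hu] at h2
        simp only [val] at h1 h2 h3
        have h4 : (⟨j, by omega⟩ : Fin (2 ^ l)) ≤ idx l (c' h) := by simpa using h1.symm
        have h5 : (idx l).symm ⟨j, by omega⟩ ≠ c' h := by simpa using h2.symm
        have h6 : (⟨j, by omega⟩ : Fin (2 ^ l)) ≠ idx l (c' h) := by
          intro h7
          apply h5
          rw [h7, Equiv.symm_apply_apply]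
        rw [h3, decide_eq_true_eq]
        have h7 := lt_of_le_of_ne h4 h6
        exact h7
    have hpos : 0 < 2 ^ l := Nat.two_pow_pos l
    obtain ⟨c', h1, h2, -⟩ := hloc3 (Sum.inr (Sum.inl (h, ⟨2 ^ l - 1, by omega⟩)))
      (Sum.inl (h, (idx l).symm ⟨2 ^ l - 1, by omega⟩))
      (Sum.inl (h, (idx l).symm ⟨2 ^ l - 1, by omega⟩))
    rw [key] at h1
    rw [hu] at h2
    simp only [val] at h1 h2
    have h4 : (⟨2 ^ l - 1, by omega⟩ : Fin (2 ^ l)) ≤ idx l (c' h) := by simpa using h1.symm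
    have h5 : (idx l).symm ⟨2 ^ l - 1, by omega⟩ ≠ c' h := by simpa using h2.symm
    apply h5
    rw [Equiv.symm_apply_eq]
    apply Fin.ext
    have h6 := (idx l (c' h)).2
    have h7 : 2 ^ l - 1 ≤ (idx l (c' h) : ℕ) := h4
    simp only
    omega
  -- the pairs
  have hY : ∀ b α α', a (ε (Sum.inl ((b, false), α))) = true →
      a (ε (Sum.inl ((b, true), α'))) = true →
      Yg ε P0 hP0 (b, α, α') ∈ S ∧ α = c (b, false) ∧ α' = c (b, true) := by
    intro b α α' h1 h2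
    have h3 : Yg ε P0 hP0 (b, α, α') ∈ S := by
      apply ha
      rw [Yg, viol_gcl]
      intro x hx
      rw [TY, Finset.mem_insert, Finset.mem_insert, Finset.mem_map] at hx
      rcases hx with rfl | rfl | ⟨j, -, rfl⟩
      · exact h1
      · exact h2
      · exact hz j
    refine ⟨h3, ?_⟩
    rcases hS _ h3 with h | ⟨x, h⟩ | ⟨b', h⟩
    · exact absurd rfl ((mem_Zg.1 h).2.2 _)
    · have := @inj_XY d D l L R n ε P0 hP0 (Sum.inr (b, α, α')) (Sum.inl x) h
      simp at this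
    · have := @inj_XY d D l L R n ε P0 hP0 (Sum.inr (b, α, α'))
        (Sum.inr (b', c (b', false), c (b', true))) h
      simp only [Sum.inr.injEq, Prod.mk.injEq] at this
      obtain ⟨rfl, h4, h5⟩ := this
      exact ⟨h4, h5⟩
  have hpair : ∀ b, Yg ε P0 hP0 (b, c (b, false), c (b, true)) ∈ S ∧
      a (ε (Sum.inl ((b, false), c (b, false)))) = true ∧
      a (ε (Sum.inl ((b, true), c (b, true)))) = true := by
    intro b
    obtain ⟨α, hα⟩ := hex (b, false)
    obtain ⟨α', hα'⟩ := hex (b, true)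
    obtain ⟨h3, rfl, rfl⟩ := hY b α α' hα hα'
    exact ⟨h3, hα, hα'⟩
  have hu : ∀ h, a (ε (Sum.inl (h, c h))) = true := by
    rintro ⟨b, s⟩
    cases s
    · exact (hpair b).2.1
    · exact (hpair b).2.2
  refine ⟨fun h i j => ?_, fun b => (hpair b).1⟩
  apply ha
  rw [Xg, viol_gcl]
  intro x hx
  rw [TX, Finset.mem_insert, Finset.mem_map] at hx
  rcases hx with rfl | ⟨j', -, rfl⟩
  · exact hw _ _ _ _ (hu h)
  · exact hz j'

/-- Hypothesis (ii) of the machine. -/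
theorem h2_mem (ε : Gv D l L R ≃ Fin n) (P0 : Finset (Fin R)) (hP0 : P0.card = d)
    (c : Fin D × Bool → Fin l → Bool)
    [DecidablePred fun C : Clause n (d + 2) => ¬ Sats (ac ε c) C] :
    ∀ e ∈ Finset.univ.filter fun C : Clause n (d + 2) => ¬ Sats (ac ε c) C,
      e ∈ Zg ε P0 hP0 ∨ (∃ h i j, e = Xg (d := d) ε ((h, i), (c h i, j))) ∨
        ∃ b, e = Yg ε P0 hP0 (b, c (b, false), c (b, true)) := by
  intro e he
  have hv : ¬ Sats (ac ε c) e := (Finset.mem_filter.1 he).2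
  by_cases h1 : ∃ x, Xg (d := d) ε x = e
  · obtain ⟨⟨⟨h, i⟩, e', s⟩, rfl⟩ := h1
    rw [viol_X] at hv
    subst hv
    exact Or.inr (Or.inl ⟨h, i, s, rfl⟩)
  · by_cases h2 : ∃ y, Yg ε P0 hP0 y = e
    · obtain ⟨⟨b, α, α'⟩, rfl⟩ := h2
      rw [viol_Y] at hv
      obtain ⟨rfl, rfl⟩ := hv
      exact Or.inr (Or.inr ⟨b, rfl⟩)
    · push Not at h1 h2
      exact Or.inl (mem_Zg.2 ⟨⟨c, hv⟩, h1, h2⟩)

end gadget

end Pool.Agent.Helper41.SAT
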