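import Pool.Agent.Helper41.SAT.NumA

/-!
# Determinant sums for `k`-SAT, `k` fixed: the choice of the parameters, main part
-/

set_option autoImplicit false

namespace Pool.Agent.Helper41.SAT

open Real

/-- **Numerics** for sums of Pfaffians with cofactors. -/
theorem numE (p : ℕ) {n m r d ν : ℕ} (hn : 1 ≤ n) (hnm : n ≤ m) (hd : 1 ≤ d)
    (hmd : n ^ (p + 1) ≤ m * d) (hr : 1 ≤ r)
    (hν : (ν : ℝ) * (1 + log (m * d / n ^ (p + 1))) ^ 2 ≤ cE p * n ^ (p + 1))
    (H : ∀ D l L R : ℕ, 1 ≤ D → 1 ≤ l → 1 ≤ L → p ≤ R → D < m →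
      2 * D * (2 * 2 ^ l + l * L) + R = n → ∀ q : ℝ, 0 < q → q < 1 →
      q ^ (ν + D * (d - 1)) * (2 - q ^ (L * R.choose p)) ^ (2 * D * l) ≤
        r * ∑ j ∈ Finset.range (2 * D + 1), (Nat.choose (2 * m - 2 * D - 1 + j) j : ℝ) *
          (1 - q ^ d) ^ j) :
    exp (cE p * n ^ (p + 2) / (m * d * (1 + log (m * d / n ^ (p + 1))) ^ 2)) ≤ 2 * r := by
  have hn' : (1 : ℝ) ≤ n := by exact_mod_cast hn
  have hn0 : (0 : ℝ) < n := by linarith
  have hnm' : (n : ℝ) ≤ m := by exact_mod_cast hnm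
  have hm0 : (0 : ℝ) < m := by linarith
  have hd' : (1 : ℝ) ≤ d := by exact_mod_cast hd
  have hd0 : (0 : ℝ) < d := by linarith
  have hr' : (1 : ℝ) ≤ r := by exact_mod_cast hr
  have hmd' : (n : ℝ) ^ (p + 1) ≤ m * d := by exact_mod_cast hmd
  have hnp : (0 : ℝ) < (n : ℝ) ^ (p + 1) := by positivity
  set μ : ℝ := m * d / n ^ (p + 1) with hμ
  have hμ1 : 1 ≤ μ := by rw [hμ, le_div_iff₀ hnp]; linarith
  have hμ0 : 0 < μ := by linarith
  have hμn : μ * n ^ (p + 1) = m * d := by rw [hμ]; field_simp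
  have hL1 : 1 ≤ 1 + log μ := by
    have := log_nonneg hμ1
    linarith
  have hL0 : 0 < 1 + log μ := by linarith
  obtain ⟨hK1, hKp⟩ := K1_ge p
  obtain ⟨K, hKdef⟩ : ∃ K, K = K1 p := ⟨_, rfl⟩
  have hcE : cE p = 1 / (400 * K * exp 10 * (48 * K) ^ 4) := by rw [cE, hKdef]
  rw [← hKdef] at hK1 hKp
  have hK0 : 0 < K := by linarith
  obtain ⟨l, hl2, hl3, -, hl4⟩ := choose_l (a := 48 * K) (by linarith) hμ1
  have h100 := exp_pos 10
  have h101 := exp_ten
  have hexp : cE p * n ^ (p + 2) / (m * d * (1 + log μ) ^ 2) = cE p * n / (μ * (1 + log μ) ^ 2) := by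
    rw [hμ]
    field_simp
    ring
  rw [hexp]
  obtain ⟨G, hG⟩ : ∃ G : ℕ, G = 2 ^ l := ⟨_, rfl⟩
  have hG' : (G : ℝ) = 2 ^ l := by rw [hG]; push_cast; rfl
  have hG0 : (0 : ℝ) < G := by rw [hG']; positivity
  have hGpos : 0 < G := by exact_mod_cast hG0
  have hl2' : (2 : ℝ) ≤ l := by exact_mod_cast hl2
  have hl0 : (0 : ℝ) < l := by linarith
  have hlG : l ≤ G := by rw [hG]; exact Nat.lt_two_pow_self.le
  obtain ⟨L, hL⟩ : ∃ L : ℕ, L = G / l := ⟨_, rfl⟩
  have hL1' : 1 ≤ L := by
    rw [hL, Nat.one_le_div_iff (by omega)]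
    exact hlG
  have hlL : l * L ≤ G := by rw [hL]; exact Nat.mul_div_le G l
  have hGL : G ≤ 2 * (l * L) := by
    have h1 : G < (L + 1) * l := by
      rw [hL]
      exact (Nat.div_lt_iff_lt_mul (by omega)).1 (by omega)
    have h2 : (L + 1) * l ≤ 2 * L * l := Nat.mul_le_mul_right _ (by omega)
    calc G ≤ 2 * L * l := h1.le.trans h2
      _ = _ := by ring
  have hGL' : (G : ℝ) ≤ 2 * (l * L) := by exact_mod_cast hGL
  have hLG : L ≤ G := (Nat.le_mul_of_pos_left L (by omega)).trans hlL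
  have hLG' : (L : ℝ) ≤ G := by exact_mod_cast hLG
  have hL0' : (0 : ℝ) < L := by exact_mod_cast hL1'
  by_cases hcase : 12 * G ≤ n ∧ 4 * p ≤ n
  · obtain ⟨hcase1, hcase2⟩ := hcase
    obtain ⟨D, hDdef⟩ : ∃ D, D = n / (12 * G) := ⟨_, rfl⟩
    have hD1 : 1 ≤ D := by
      rw [hDdef, Nat.one_le_div_iff (by omega)]
      exact hcase1
    have hDn0 : D * (12 * G) ≤ n := by rw [hDdef]; exact Nat.div_mul_le_self _ _
    have hnD : n ≤ 24 * (D * G) := by
      have h1 : n < (D + 1) * (12 * G) := by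
        rw [hDdef]
        exact (Nat.div_lt_iff_lt_mul (by omega)).1 (by omega)
      have h2 : (D + 1) * (12 * G) ≤ 2 * D * (12 * G) := Nat.mul_le_mul_right _ (by omega)
      calc n ≤ 2 * D * (12 * G) := h1.le.trans h2
        _ = _ := by ring
    have hDn' : (D : ℝ) * (12 * G) ≤ n := by exact_mod_cast hDn0
    have hnD' : (n : ℝ) ≤ 24 * (D * G) := by exact_mod_cast hnD
    have hD1' : (1 : ℝ) ≤ D := by exact_mod_cast hD1
    have hD0 : (0 : ℝ) < D := by linarith
    have hsize : 2 * (2 * D * (2 * 2 ^ l + l * L)) ≤ n := by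
      calc 2 * (2 * D * (2 * 2 ^ l + l * L)) ≤ 2 * (2 * D * (2 * G + G)) := by
            refine Nat.mul_le_mul_left _ (Nat.mul_le_mul_left _ ?_)
            rw [← hG]
            omega
        _ = D * (12 * G) := by ring
        _ ≤ n := hDn0
    obtain ⟨R, hR⟩ : ∃ R, R = n - 2 * D * (2 * 2 ^ l + l * L) := ⟨_, rfl⟩
    have hRn : 2 * D * (2 * 2 ^ l + l * L) + R = n := by omega
    have hR2 : n ≤ 2 * R := by omega
    have hRp : p ≤ R := by omega
    have hRle : R ≤ n := by omega
    have hG4 : (4 : ℝ) ≤ G := by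
      rw [hG']
      calc (4 : ℝ) = 2 ^ 2 := by norm_num
        _ ≤ 2 ^ l := pow_le_pow_right₀ (by norm_num) hl2
    have hDm : D < m := by
      have h1 : (D : ℝ) * (12 * 4) ≤ n := le_trans (mul_le_mul_of_nonneg_left
        (mul_le_mul_of_nonneg_left hG4 (by norm_num)) hD0.le) hDn'
      have h2 : (D : ℝ) < m := by linarith
      exact_mod_cast h2
    obtain ⟨B, hBdef⟩ : ∃ B : ℕ, B = L * R.choose p := ⟨_, rfl⟩
    -- bounds for `B`
    have hch : (n : ℝ) ^ p ≤ K * (R.choose p : ℝ) := by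
      have := choose_ge hcase2 hR2
      rwa [← K1, ← hKdef] at this
    have hB1 : (G : ℝ) * n ^ p ≤ 2 * l * K * B := by
      rw [hBdef]
      push_cast
      calc (G : ℝ) * n ^ p ≤ (2 * (l * L)) * (K * (R.choose p : ℝ)) :=
            mul_le_mul hGL' hch (by positivity) (by positivity)
        _ = _ := by ring
    have hB2 : (B : ℝ) ≤ G * n ^ p := by
      have h1 : B ≤ G * n ^ p := by
        rw [hBdef]
        exact Nat.mul_le_mul hLG ((Nat.choose_le_pow R p).trans (Nat.pow_le_pow_left hRle p))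
      exact_mod_cast h1
    have hB0 : (0 : ℝ) < B := by
      have h1 : (0 : ℝ) < 2 * l * K * B := lt_of_lt_of_le (by positivity) hB1
      by_contra hcon
      push Not at hcon
      have h2 : 2 * l * K * (B : ℝ) ≤ 0 := mul_nonpos_of_nonneg_of_nonpos (by positivity) hcon
      linarith
    have hGl : (48 * K) ^ 2 * μ * l ^ 2 ≤ (G : ℝ) := by rw [hG']; exact hl3
    -- `D * B` from below
    have hDB1 : (n : ℝ) ^ (p + 1) ≤ 48 * K * l * (D * B) := by
      calc (n : ℝ) ^ (p + 1) = n * n ^ p := by ring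
        _ ≤ 24 * (D * G) * n ^ p := mul_le_mul_of_nonneg_right hnD' (by positivity)
        _ = 24 * D * (G * n ^ p) := by ring
        _ ≤ 24 * D * (2 * l * K * B) := mul_le_mul_of_nonneg_left hB1 (by positivity)
        _ = _ := by ring
    have hDB2 : (D : ℝ) * B ≤ m * d := by
      calc (D : ℝ) * B ≤ D * (G * n ^ p) := mul_le_mul_of_nonneg_left hB2 hD0.le
        _ = D * G * n ^ p := by ring
        _ ≤ n * n ^ p := by
            refine mul_le_mul_of_nonneg_right ?_ (by positivity)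
            have : 0 ≤ (D : ℝ) * G := by positivity
            linarith
        _ = n ^ (p + 1) := by ring
        _ ≤ m * d := hmd'
    -- the choice of q
    set lam : ℝ := log (2 * l) with hlam
    have hlam1 : 1 ≤ lam := by
      have h1 : log 4 ≤ lam := log_le_log (by norm_num) (by linarith)
      have h2 : log 4 = 2 * log 2 := by
        rw [show (4 : ℝ) = 2 ^ 2 by norm_num, log_pow]
        push_cast
        ring
      have h3 := log_two_gt_d9
      linarith
    have hlam0 : 0 < lam := by linarith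
    have hlam2 : lam ≤ l := by
      have h1 : log (2 * l / 2) ≤ 2 * l / 2 - 1 := log_le_sub_one_of_pos (by positivity)
      have h2 : log (2 * l / 2 : ℝ) = lam - log 2 := by
        rw [log_div (by positivity) (by norm_num)]
      have h3 := log_two_lt_d9
      rw [h2] at h1
      linarith
    set q : ℝ := exp (-(lam / B)) with hq
    have hq0 : 0 < q := exp_pos _
    have hq1 : q < 1 := by
      rw [hq, exp_lt_one_iff]
      have : 0 < lam / B := by positivity
      linarith
    have hqB : q ^ B = 1 / (2 * l) := by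
      rw [hq, ← exp_nat_mul]
      have h1 : (B : ℝ) * -(lam / B) = -lam := by field_simp
      rw [h1, exp_neg, hlam, exp_log (by positivity), one_div]
    have hqd : 1 - q ^ d ≤ d * (lam / B) := by
      have h1 : q ^ d = exp (-(d * (lam / B))) := by
        rw [hq, ← exp_nat_mul]
        congr 1
        ring
      have := add_one_le_exp (-(d * (lam / B)))
      rw [h1]
      linarith
    have hqd0 : 0 ≤ 1 - q ^ d := by
      have := pow_le_one₀ (n := d) hq0.le hq1.le
      linarith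
    have hmain := H D l L R hD1 (by omega) hL1' hRp hDm hRn q hq0 hq1
    rw [← hBdef, hqB] at hmain
    -- the left side
    have hleft : ((G : ℝ) ^ 2 / 2) ^ D ≤ (2 - 1 / (2 * l)) ^ (2 * D * l) := left_ge D hl2' hG'
    -- the factor of the cofactors
    have hcof : exp (-1) ^ D ≤ q ^ (ν + D * (d - 1)) :=
      cof_ge hK1 hcE hμ1 hn0 hnm' hd0 hD0 hl0 hB0 hlam0 hlam2 hν hl3 hl4 hμn hB1
        hGl hDB1 hq
    -- the right side
    obtain ⟨y, hy⟩ : ∃ y : ℝ, y = 2 * m * (d * (lam / B)) := ⟨_, rfl⟩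
    have hy1 : ((2 * D : ℕ) : ℝ) ≤ y := by
      push_cast
      rw [hy]
      have h1 : (D : ℝ) ≤ m * (d * (lam / B)) := by
        have h2 : m * (d * (lam / B)) = m * d * lam / B := by ring
        rw [h2, le_div_iff₀ hB0]
        calc (D : ℝ) * B ≤ m * d := hDB2
          _ = m * d * 1 := (mul_one _).symm
          _ ≤ m * d * lam := mul_le_mul_of_nonneg_left hlam1 (by positivity)
      linarith
    have hsum := sum_choose_le' (m := 2 * m) (k := 2 * D) (by omega) (by omega)
      (x := 1 - q ^ d) (y := y) hqd0 (by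
        push_cast
        rw [hy]
        exact mul_le_mul_of_nonneg_left hqd (by positivity)) hy1
    have hbase : exp 1 * y / ((2 * D : ℕ) : ℝ) ≤ exp 1 * G / 48 := by
      have h1 : y / ((2 * D : ℕ) : ℝ) ≤ G / 48 := by
        have h3 : y / ((2 * D : ℕ) : ℝ) ≤ 48 * K * μ * l ^ 2 := by
          push_cast
          rw [div_le_iff₀ (by positivity), hy]
          have h4 : 2 * (m : ℝ) * (d * (lam / B)) = 2 * (m * d) * lam / B := by ring
          rw [h4, div_le_iff₀ hB0, ← hμn]
          calc 2 * (μ * n ^ (p + 1)) * lam ≤ 2 * (μ * (48 * K * l * (D * B))) * l := by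
                refine mul_le_mul ?_ hlam2 hlam0.le (by positivity)
                exact mul_le_mul_of_nonneg_left (mul_le_mul_of_nonneg_left hDB1 hμ0.le)
                  (by norm_num)
            _ = 48 * K * μ * l ^ 2 * (2 * D) * B := by ring
        have h5 : 48 * K * μ * l ^ 2 * 48 ≤ (48 * K) ^ 2 * μ * l ^ 2 := by
          exact sm3 hK1 (by positivity)
        linarith
      calc exp 1 * y / ((2 * D : ℕ) : ℝ) = exp 1 * (y / ((2 * D : ℕ) : ℝ)) := by ring
        _ ≤ exp 1 * (G / 48) := mul_le_mul_of_nonneg_left h1 (exp_pos 1).le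
        _ = exp 1 * G / 48 := by ring
    have hy0 : 0 < y := lt_of_lt_of_le (by push_cast; positivity) hy1
    have hSg1 := hsum.trans (pow_le_pow_left₀ (by positivity) hbase (2 * D))
    have h1 : exp (-1) ^ D * ((G : ℝ) ^ 2 / 2) ^ D ≤ r * (exp 1 * G / 48) ^ (2 * D) :=
      (mul_le_mul hcof hleft (by positivity) (by positivity)).trans
        (hmain.trans (mul_le_mul_of_nonneg_left hSg1 (by linarith)))
    have h6 : exp D ≤ r := fin_step hG0 hr' h1
    have h7 : cE p * n / (μ * (1 + log μ) ^ 2) ≤ D := by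
      rw [div_le_iff₀ (by positivity)]
      have h8 : (G : ℝ) ≤ 2 * exp 10 * (48 * K) ^ 4 * (μ * (1 + log μ) ^ 2) := by
        rw [hG']; exact hl4
      have h9 : cE p * (48 * exp 10 * (48 * K) ^ 4) ≤ 1 := by
        rw [hcE, one_div, inv_mul_le_iff₀ (by positivity)]
        exact sm4 hK1 h100
      have h11 : 0 ≤ cE p := (cE_pos p).le
      calc cE p * (n : ℝ) ≤ cE p * (24 * (D * G)) := mul_le_mul_of_nonneg_left hnD' h11
        _ ≤ cE p * (24 * (D * (2 * exp 10 * (48 * K) ^ 4 * (μ * (1 + log μ) ^ 2)))) :=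
            mul_le_mul_of_nonneg_left (mul_le_mul_of_nonneg_left
              (mul_le_mul_of_nonneg_left h8 hD0.le) (by norm_num)) h11
        _ = cE p * (48 * exp 10 * (48 * K) ^ 4) * (D * (μ * (1 + log μ) ^ 2)) := by ring
        _ ≤ 1 * (D * (μ * (1 + log μ) ^ 2)) := mul_le_mul_of_nonneg_right h9 (by positivity)
        _ = D * (μ * (1 + log μ) ^ 2) := one_mul _
    calc exp (cE p * n / (μ * (1 + log μ) ^ 2)) ≤ exp D := exp_le_exp.2 h7
      _ ≤ r := h6
      _ ≤ 2 * r := by linarith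
  · have h11 : 0 ≤ cE p := (cE_pos p).le
    have hμL : 1 ≤ μ * (1 + log μ) ^ 2 :=
      one_le_mul_of_one_le_of_one_le hμ1 (one_le_pow₀ hL1)
    have hlog := log_two_gt_d9
    have h4 : cE p * n / (μ * (1 + log μ) ^ 2) ≤ log 2 := by
      rw [div_le_iff₀ (by positivity)]
      rw [not_and_or] at hcase
      rcases hcase with hcase | hcase
      · push Not at hcase
        have h1 : (n : ℝ) ≤ 12 * G := by exact_mod_cast hcase.le
        have h2 : (G : ℝ) ≤ 2 * exp 10 * (48 * K) ^ 4 * (μ * (1 + log μ) ^ 2) := by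
          rw [hG']; exact hl4
        have h3 : cE p * (24 * exp 10 * (48 * K) ^ 4) ≤ 1 / 2 := by
          rw [hcE, one_div, inv_mul_le_iff₀ (by positivity)]
          exact sm5 hK1 h100
        calc cE p * (n : ℝ) ≤ cE p * (12 * (2 * exp 10 * (48 * K) ^ 4 *
              (μ * (1 + log μ) ^ 2))) := mul_le_mul_of_nonneg_left (h1.trans
                (mul_le_mul_of_nonneg_left h2 (by norm_num))) h11
          _ = cE p * (24 * exp 10 * (48 * K) ^ 4) * (μ * (1 + log μ) ^ 2) := by ring
          _ ≤ 1 / 2 * (μ * (1 + log μ) ^ 2) := mul_le_mul_of_nonneg_right h3 (by positivity)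
          _ ≤ log 2 * (μ * (1 + log μ) ^ 2) :=
              mul_le_mul_of_nonneg_right (by linarith) (by positivity)
      · push Not at hcase
        have h1 : (n : ℝ) ≤ 4 * p := by exact_mod_cast hcase.le
        have h3 : cE p * (4 * K) ≤ 1 / 2 := by
          rw [hcE, one_div, inv_mul_le_iff₀ (by positivity)]
          exact sm6 hK1 (by linarith)
        calc cE p * (n : ℝ) ≤ cE p * (4 * K) :=
              mul_le_mul_of_nonneg_left (by linarith) h11
          _ ≤ 1 / 2 := h3
          _ ≤ log 2 * 1 := by linarith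
          _ ≤ log 2 * (μ * (1 + log μ) ^ 2) :=
              mul_le_mul_of_nonneg_left hμL (by linarith)
    calc exp (cE p * n / (μ * (1 + log μ) ^ 2)) ≤ exp (log 2) := exp_le_exp.2 h4
      _ = 2 := exp_log (by norm_num)
      _ ≤ 2 * r := by linarith

end Pool.Agent.Helper41.SAT
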