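import Pool.Agent.Helper41.SAT.Gad
import Pool.Agent.Helper41.SAT.Num
import Pool.Agent.Helper76.CPF.Pf
import Pool.Agent.Helper59.SAT.Fin

/-!
# Determinant sums for `k`-SAT, `k ≥ 3` fixed: lower bounds of ETH type
-/

set_option autoImplicit false

namespace Pool.Agent.Helper41.SAT

open Finset MvPolynomial Pool.SatDet Pool.Agent.Helper76.CDET
open scoped BigOperators

/-- all clauses satisfied by `a0` together have the only solution `a0` -/
theorem unique_sat {n k : ℕ} (hk : 1 ≤ k) (hkn : k ≤ n) (a0 : Fin n → Bool)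
    (φ : Finset (Clause n k)) (hφ : ∀ C, C ∈ φ ↔ Sats a0 C) : ∃! a, ∀ C ∈ φ, Sats a C := by
  refine ⟨a0, fun C hC => (hφ C).1 hC, fun a ha => ?_⟩
  by_contra hne
  obtain ⟨i, hi⟩ := Function.ne_iff.1 hne
  obtain ⟨s, hs1, hs2⟩ := Finset.exists_superset_card_eq (s := {i}) (n := k)
    (by rw [Finset.card_singleton]; exact hk) (by rw [Fintype.card_fin]; exact hkn)
  have h1 : vcl a s hs2 ∈ φ := by
    rw [hφ, sats_vcl_iff]
    exact ⟨i, hs1 (Finset.mem_singleton_self i), hi.symm⟩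
  exact not_sats_vcl a s hs2 (ha _ h1)

theorem restr_compl {F : Type} [Field F] {Ya : Type} {n k : ℕ}
    (f : MvPolynomial (Clause n k ⊕ Ya) F) (S : Finset (Clause n k)) :
    restr S f = aeval (Sum.elim (fun C => if C ∈ Sᶜ then 0 else X (Sum.inl C))
      (fun y => X (Sum.inr y))) f := by
  unfold restr
  congr 2
  funext v
  rcases v with C | y
  · by_cases h : C ∈ S <;> simp [h]
  · rfl

/-- The inequality for the gadget. -/
theorem eth_ineq {F : Type} [Field F] {Ya : Type} {d D l L R n : ℕ} (hd : 1 ≤ d) (hD : 1 ≤ D)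
    (hdR : d + 1 ≤ R) (hn : 2 * D * (2 * 2 ^ l + l * L) + R = n)
    (f : MvPolynomial (Clause n (d + 2) ⊕ Ya) F)
    (hml : ∀ μ ∈ f.support, ∀ C, μ (Sum.inl C) ≤ 1)
    (h0 : ∀ φ : Finset (Clause n (d + 2)), ¬ Satisfiable φ →
      (aeval (Sum.elim (fun C => if C ∈ φ then 0 else X (Sum.inl C)) (fun y => X (Sum.inr y))) f :
        MvPolynomial (Clause n (d + 2) ⊕ Ya) F) = 0)
    (h1 : ∀ φ : Finset (Clause n (d + 2)), (∃! a, ∀ C ∈ φ, Sats a C) →
      (aeval (Sum.elim (fun C => if C ∈ φ then 0 else X (Sum.inl C)) (fun y => X (Sum.inr y))) f :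
        MvPolynomial (Clause n (d + 2) ⊕ Ya) F) ≠ 0)
    {r m δ ν : ℕ} (hf : IsPfSum r m δ ν f) (hδ : 1 ≤ δ) (hDm : D < m)
    (q : ℝ) (hq0 : 0 < q) (hq1 : q < 1) :
    q ^ (ν + D * (δ - 1)) * (2 - q ^ (L * R.choose (d + 1))) ^ (2 * D * l) ≤ r *
      ∑ j ∈ Finset.range (2 * D + 1), (Nat.choose (2 * m - 2 * D - 1 + j) j : ℝ) *
        (1 - q ^ δ) ^ j := by
  classical
  have h2l : 1 ≤ 2 ^ l := Nat.one_le_two_pow
  have hn4 : 4 + R ≤ n := by
    have h2 : 4 ≤ 2 * D * (2 * 2 ^ l + l * L) := by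
      calc 4 = 2 * 1 * (2 * 1) := by norm_num
        _ ≤ 2 * D * (2 * 2 ^ l + l * L) :=
          Nat.mul_le_mul (Nat.mul_le_mul_left _ hD) (by omega)
    omega
  have hk : d + 2 ≤ n := by omega
  have hcard : Fintype.card (Gv D l L R) = Fintype.card (Fin n) := by
    rw [card_Gv, hn, Fintype.card_fin]
  obtain ⟨ε⟩ : Nonempty (Gv D l L R ≃ Fin n) := ⟨Fintype.equivOfCardEq hcard⟩
  obtain ⟨P0, -, hP0⟩ := Finset.exists_subset_card_eq (s := (Finset.univ : Finset (Fin R)))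
    (n := d) (by rw [Finset.card_univ, Fintype.card_fin]; omega)
  have hP : ∀ S : Finset (Clause n (d + 2)), restr S f ≠ 0 → ∃ a, ∀ C, ¬ Sats a C → C ∈ S := by
    intro S hS
    by_contra hcon
    apply hS
    rw [restr_compl]
    apply h0
    rw [← satP_compl]
    exact hcon
  have hmain := pf_bits_real f hml (fun S => restr S f ≠ 0) (fun S => Iff.rfl)
    (Xg (d := d) ε) (Yg ε P0 hP0) (Zg ε P0 hP0) (inj_XY ε P0 hP0)
    (fun x hx => (mem_Zg.1 hx).2.1 x rfl) (fun y hy => (mem_Zg.1 hy).2.2 y rfl)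
    (fun c S hS hS2 => h1_sat ε P0 hP0 hd (by rw [hcard, Fintype.card_fin]; exact hk) c S
      (hP S hS) hS2)
    (fun c => by
      refine ⟨Finset.univ.filter fun C => ¬ Sats (ac ε c) C, ?_, h2_mem ε P0 hP0 c⟩
      rw [restr_compl]
      apply h1
      refine unique_sat (by omega) hk (ac ε c) _ fun C => ?_
      simp)
    hf hδ hDm q hq0 hq1
  rwa [show 2 * (m - D) = 2 * m - 2 * D by omega] at hmain

/-- **ETH for tests.** -/
theorem eth (k : ℕ) (hk : 3 ≤ k) : ∃ c : ℝ, 0 < c ∧ ∀ (F : Type) [Field F] (Ya : Type)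
    (n m δ ν r : ℕ), k ≤ n → n ≤ m → 1 ≤ δ → n ^ k ≤ m * δ →
    (ν : ℝ) * (1 + Real.log (m * δ / n ^ k)) ^ 2 ≤ c * n ^ k →
    ∀ f : MvPolynomial (Clause n k ⊕ Ya) F, (∀ μ ∈ f.support, ∀ C, μ (Sum.inl C) ≤ 1) →
    (∀ φ : Finset (Clause n k), ¬ Satisfiable φ →
      (aeval (Sum.elim (fun C => if C ∈ φ then 0 else X (Sum.inl C)) (fun y => X (Sum.inr y))) f :
        MvPolynomial (Clause n k ⊕ Ya) F) = 0) →
    (∀ φ : Finset (Clause n k), (∃! a, ∀ C ∈ φ, Sats a C) →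
      (aeval (Sum.elim (fun C => if C ∈ φ then 0 else X (Sum.inl C)) (fun y => X (Sum.inr y))) f :
        MvPolynomial (Clause n k ⊕ Ya) F) ≠ 0) →
    IsPfSum r m δ ν f →
    Real.exp (c * n ^ (k + 1) / (m * δ * (1 + Real.log (m * δ / n ^ k)) ^ 2)) ≤ 2 * r := by
  classical
  obtain ⟨d, rfl⟩ : ∃ d, k = d + 2 := ⟨k - 2, by omega⟩
  refine ⟨cE (d + 1), cE_pos _, ?_⟩
  intro F _ Ya n m δ ν r hkn hnm hδ hmd hν f hml h0 h1 hf
  have hr : 1 ≤ r := by
    by_contra hr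
    have hr0 : r = 0 := by omega
    subst hr0
    obtain ⟨s, P, A, -, -, -, hf0⟩ := hf
    rw [Finset.univ_eq_empty, Finset.sum_empty] at hf0
    refine h1 (Finset.univ.filter fun C => Sats (fun _ => false) C)
      (unique_sat (by omega) hkn (fun _ => false) _ fun C => by simp) ?_
    rw [hf0, map_zero]
  refine numE (d + 1) (by omega) hnm hδ hmd hr hν ?_
  intro D l L R hD _ _ hR hDm hn q hq0 hq1
  exact eth_ineq (by omega) hD hR hn f hml h0 h1 hf hδ hDm q hq0 hq1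

end Pool.Agent.Helper41.SAT
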