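import Mathlib

/-!
# Numerics: choice of `l`, sums of binomial coefficients (copies of lemmas of Helper91)
-/

set_option autoImplicit false

namespace Pool.Agent.Helper41.SAT

open Real

theorem exp_ten : (400 : ℝ) ≤ exp 10 := by
  have h1 : (2 : ℝ) ≤ exp 1 := by
    have := exp_one_gt_d9
    linarith
  have h2 : exp 10 = exp 1 ^ 10 := by
    rw [← exp_nat_mul]
    norm_num
  rw [h2]
  calc (400 : ℝ) ≤ 2 ^ 10 := by norm_num
    _ ≤ exp 1 ^ 10 := pow_le_pow_left₀ (by norm_num) h1 10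

/-- The choice of `l`. -/
theorem choose_l {a : ℝ} (ha : 1 ≤ a) {μ : ℝ} (hμ : 1 ≤ μ) :
    ∃ l : ℕ, 2 ≤ l ∧ a ^ 2 * μ * l ^ 2 ≤ 2 ^ l ∧
      l * (2 : ℝ) ^ l ≤ 40 * exp 10 * a ^ 5 * (μ * (1 + log μ) ^ 3) ∧
      (2 : ℝ) ^ l ≤ 2 * exp 10 * a ^ 4 * (μ * (1 + log μ) ^ 2) := by
  set L : ℝ := 1 + log μ with hL
  have hμ0 : 0 < μ := by linarith
  have hL1 : 1 ≤ L := by
    have := log_nonneg hμ
    linarith
  have hL0 : 0 < L := by linarith
  have ha0 : 0 < a := by linarith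
  have h10 := exp_ten
  have h100 : 0 < exp 10 := by linarith
  set x : ℝ := exp 10 * a ^ 4 * (μ * L ^ 2) with hx
  have hx400 : 400 ≤ x := by
    have h1 : 1 ≤ a ^ 4 := one_le_pow₀ ha
    have h2 : 1 ≤ μ * L ^ 2 := one_le_mul_of_one_le_of_one_le hμ (one_le_pow₀ hL1)
    calc (400 : ℝ) ≤ exp 10 := h10
      _ ≤ exp 10 * a ^ 4 := le_mul_of_one_le_right h100.le h1
      _ ≤ x := le_mul_of_one_le_right (by positivity) h2
  obtain ⟨p, hp1, hp2⟩ := exists_nat_pow_near (x := x) (y := 2) (by linarith) (by norm_num)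
  have hp : 1 ≤ p := by
    by_contra hcon
    have : p = 0 := by omega
    subst this
    norm_num at hp2
    linarith
  have hlogx : log x ≤ 10 * a * L := by
    have h1 : log x = 10 + 4 * log a + (log μ + 2 * log L) := by
      rw [hx, log_mul (by positivity) (by positivity), log_mul (by positivity) (by positivity),
        log_mul (by positivity) (by positivity), log_exp, log_pow, log_pow]
      push_cast
      ring
    have h2 : log a ≤ a - 1 := log_le_sub_one_of_pos ha0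
    have h3 : log L ≤ L - 1 := log_le_sub_one_of_pos hL0
    have h4 : log μ = L - 1 := by rw [hL]; ring
    rw [h1, h4]
    nlinarith [mul_nonneg (sub_nonneg.2 ha) (sub_nonneg.2 hL1)]
  have hplog : (p : ℝ) * log 2 ≤ log x := by
    have h1 : log ((2 : ℝ) ^ p) ≤ log x := log_le_log (by positivity) hp1
    rwa [log_pow] at h1
  have hl : ((p + 1 : ℕ) : ℝ) ≤ 20 * a * L := by
    have h1 : (0.69 : ℝ) ≤ log 2 := by
      have := log_two_gt_d9
      linarith
    have h2 : (p : ℝ) * 0.69 ≤ 10 * a * L :=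
      (mul_le_mul_of_nonneg_left h1 (by positivity)).trans (hplog.trans hlogx)
    have h3 : 1 ≤ a * L := one_le_mul_of_one_le_of_one_le ha hL1
    push_cast
    nlinarith
  refine ⟨p + 1, by omega, ?_, ?_, ?_⟩
  · calc a ^ 2 * μ * ((p + 1 : ℕ) : ℝ) ^ 2 ≤ a ^ 2 * μ * (20 * a * L) ^ 2 := by
          refine mul_le_mul_of_nonneg_left (pow_le_pow_left₀ (by positivity) hl 2) (by positivity)
      _ = 400 * (a ^ 4 * (μ * L ^ 2)) := by ring
      _ ≤ exp 10 * (a ^ 4 * (μ * L ^ 2)) := mul_le_mul_of_nonneg_right h10 (by positivity)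
      _ = x := by rw [hx]; ring
      _ ≤ 2 ^ (p + 1) := hp2.le
  · have h1 : (2 : ℝ) ^ (p + 1) ≤ 2 * x := by
      rw [pow_succ]
      linarith
    calc ((p + 1 : ℕ) : ℝ) * (2 : ℝ) ^ (p + 1) ≤ (20 * a * L) * (2 * x) :=
          mul_le_mul hl h1 (by positivity) (by positivity)
      _ = 40 * exp 10 * a ^ 5 * (μ * L ^ 3) := by rw [hx]; ring
  · rw [pow_succ]
    calc (2 : ℝ) ^ p * 2 ≤ x * 2 := mul_le_mul_of_nonneg_right hp1 (by norm_num)
      _ = 2 * exp 10 * a ^ 4 * (μ * L ^ 2) := by rw [hx]; ring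

/-- The sum over the index sets, for any upper bound `y` of `m x`. -/
theorem sum_choose_le' {m k : ℕ} (hk : 1 ≤ k) (hkm : k ≤ m) {x y : ℝ} (hx : 0 ≤ x)
    (hxy : m * x ≤ y) (hy : (k : ℝ) ≤ y) :
    ∑ j ∈ Finset.range (k + 1), (Nat.choose (m - k - 1 + j) j : ℝ) * x ^ j ≤
      (exp 1 * y / k) ^ k := by
  have hk0 : (0 : ℝ) < k := by exact_mod_cast hk
  have hy0 : 0 < y := lt_of_lt_of_le hk0 hy
  have h1 : 1 ≤ y / k := by rwa [le_div_iff₀ hk0, one_mul]
  have hmx : 0 ≤ m * x := by positivity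
  have h2 : ∀ j ∈ Finset.range (k + 1), (Nat.choose (m - k - 1 + j) j : ℝ) * x ^ j ≤
      (y / k) ^ k * ((k : ℝ) ^ j / j.factorial) := by
    intro j hj
    rw [Finset.mem_range] at hj
    have h3 : (Nat.choose (m - k - 1 + j) j : ℝ) ≤ (m : ℝ) ^ j / j.factorial := by
      refine (Nat.choose_le_pow_div j (m - k - 1 + j)).trans ?_
      have h4 : ((m - k - 1 + j : ℕ) : ℝ) ≤ m := by
        have : m - k - 1 + j ≤ m := by omega
        exact_mod_cast this
      gcongr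
    calc (Nat.choose (m - k - 1 + j) j : ℝ) * x ^ j ≤ (m : ℝ) ^ j / j.factorial * x ^ j := by
          gcongr
      _ = (m * x) ^ j / j.factorial := by rw [mul_pow]; ring
      _ ≤ y ^ j / j.factorial := by gcongr
      _ = (y / k) ^ j * ((k : ℝ) ^ j / j.factorial) := by
          rw [div_pow]
          field_simp
      _ ≤ (y / k) ^ k * ((k : ℝ) ^ j / j.factorial) := by
          have h5 : (y / k) ^ j ≤ (y / k) ^ k := pow_le_pow_right₀ h1 (by omega)
          gcongr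
  calc ∑ j ∈ Finset.range (k + 1), (Nat.choose (m - k - 1 + j) j : ℝ) * x ^ j
      ≤ ∑ j ∈ Finset.range (k + 1), (y / k) ^ k * ((k : ℝ) ^ j / j.factorial) :=
        Finset.sum_le_sum h2
    _ = (y / k) ^ k * ∑ j ∈ Finset.range (k + 1), (k : ℝ) ^ j / j.factorial := by
        rw [Finset.mul_sum]
    _ ≤ (y / k) ^ k * exp k := by
        have h6 := sum_le_exp_of_nonneg hk0.le (k + 1)
        gcongr
    _ = (exp 1 * y / k) ^ k := by
        have h7 : exp (k : ℝ) = exp 1 ^ k := by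
          rw [← exp_nat_mul, mul_one]
        rw [h7, ← mul_pow]
        congr 1
        ring


/-! ### small inequalities -/

theorem sm1 {K e : ℝ} (hK : 1 ≤ K) (he : 0 < e) :
    192 * K * e * (48 * K) ^ 2 ≤ 400 * K * e * (48 * K) ^ 4 := by
  have h9 : (48 * K) ^ 2 ≤ (48 * K) ^ 4 := pow_le_pow_right₀ (by linarith) (by norm_num)
  have h10 : 0 < K * e := by positivity
  calc 192 * K * e * (48 * K) ^ 2 = 192 * (K * e) * (48 * K) ^ 2 := by ring
    _ ≤ 400 * (K * e) * (48 * K) ^ 4 :=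
      mul_le_mul (mul_le_mul_of_nonneg_right (by norm_num) h10.le) h9 (by positivity)
        (by positivity)
    _ = _ := by ring

theorem sm2 {K : ℝ} (hK : 1 ≤ K) : 4 * K ≤ (48 * K) ^ 2 := by nlinarith

theorem sm3 {K μ x : ℝ} (hK : 1 ≤ K) (h : 0 ≤ μ * x) :
    48 * K * μ * x * 48 ≤ (48 * K) ^ 2 * μ * x := by
  have h6 : K ≤ K * K := le_mul_of_one_le_left (by linarith) hK
  calc 48 * K * μ * x * 48 = 2304 * K * (μ * x) := by ring
    _ ≤ 2304 * (K * K) * (μ * x) := mul_le_mul_of_nonneg_right (by linarith) h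
    _ = _ := by ring

theorem sm4 {K e : ℝ} (hK : 1 ≤ K) (he : 0 < e) :
    48 * e * (48 * K) ^ 4 ≤ 400 * K * e * (48 * K) ^ 4 * 1 := by
  have h10 : 0 < e * (48 * K) ^ 4 := by positivity
  calc 48 * e * (48 * K) ^ 4 = 48 * (e * (48 * K) ^ 4) := by ring
    _ ≤ 400 * K * (e * (48 * K) ^ 4) := mul_le_mul_of_nonneg_right (by linarith) h10.le
    _ = _ := by ring

theorem sm5 {K e : ℝ} (hK : 1 ≤ K) (he : 0 < e) :
    24 * e * (48 * K) ^ 4 ≤ 400 * K * e * (48 * K) ^ 4 * (1 / 2) := by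
  have h10 : 0 < e * (48 * K) ^ 4 := by positivity
  calc 24 * e * (48 * K) ^ 4 = 24 * (e * (48 * K) ^ 4) := by ring
    _ ≤ 200 * K * (e * (48 * K) ^ 4) := mul_le_mul_of_nonneg_right (by linarith) h10.le
    _ = _ := by ring

theorem sm6 {K e : ℝ} (hK : 1 ≤ K) (he : 1 ≤ e) :
    4 * K ≤ 400 * K * e * (48 * K) ^ 4 * (1 / 2) := by
  have h10 : 1 ≤ e * (48 * K) ^ 4 :=
    one_le_mul_of_one_le_of_one_le he (one_le_pow₀ (by linarith))
  calc 4 * K ≤ 200 * K * 1 := by linarith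
    _ ≤ 200 * K * (e * (48 * K) ^ 4) := mul_le_mul_of_nonneg_left h10 (by linarith)
    _ = _ := by ring

end Pool.Agent.Helper41.SAT
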