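import Pool.Agent.Helper41.SAT.Num0

/-!
# Determinant sums for `k`-SAT, `k` fixed: the choice of the parameters
-/

set_option autoImplicit false

namespace Pool.Agent.Helper41.SAT

open Real

/-- lower bound for the number of `p`-subsets -/
theorem choose_ge {p R n : ℕ} (hn : 4 * p ≤ n) (hR : n ≤ 2 * R) :
    (n : ℝ) ^ p ≤ 4 ^ p * (p.factorial : ℝ) * (R.choose p : ℝ) := by
  have h1 := Nat.pow_le_choose (α := ℝ) p R
  have h2 : (n : ℝ) / 4 ≤ ((R + 1 - p : ℕ) : ℝ) := by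
    have h3 : n ≤ 4 * (R + 1 - p) := by omega
    have h4 : (n : ℝ) ≤ 4 * ((R + 1 - p : ℕ) : ℝ) := by exact_mod_cast h3
    linarith
  have h5 : ((n : ℝ) / 4) ^ p ≤ ((R + 1 - p : ℕ) : ℝ) ^ p :=
    pow_le_pow_left₀ (by positivity) h2 p
  have h6 : (0 : ℝ) < p.factorial := by exact_mod_cast p.factorial_pos
  rw [div_le_iff₀ h6] at h1
  have h7 : (n : ℝ) ^ p = 4 ^ p * ((n : ℝ) / 4) ^ p := by
    rw [← mul_pow]
    congr 1
    ring
  rw [h7, mul_assoc]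
  refine mul_le_mul_of_nonneg_left ?_ (by positivity)
  calc ((n : ℝ) / 4) ^ p ≤ ((R + 1 - p : ℕ) : ℝ) ^ p := h5
    _ ≤ (R.choose p : ℝ) * p.factorial := h1
    _ = p.factorial * (R.choose p : ℝ) := mul_comm _ _

/-- The constants. -/
noncomputable def K1 (p : ℕ) : ℝ := 4 ^ p * (p.factorial : ℝ)

theorem K1_ge (p : ℕ) : 1 ≤ K1 p ∧ (p : ℝ) ≤ K1 p := by
  have h1 : (1 : ℝ) ≤ p.factorial := by exact_mod_cast p.factorial_pos
  have h2 : (1 : ℝ) ≤ 4 ^ p := one_le_pow₀ (by norm_num)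
  have h3 : (p : ℝ) ≤ p.factorial := by exact_mod_cast Nat.self_le_factorial p
  unfold K1
  constructor
  · exact one_le_mul_of_one_le_of_one_le h2 h1
  · exact h3.trans (le_mul_of_one_le_left (by linarith) h2)

noncomputable def cE (p : ℕ) : ℝ := 1 / (400 * K1 p * exp 10 * (48 * K1 p) ^ 4)

theorem cE_pos (p : ℕ) : 0 < cE p := by
  have h1 := (K1_ge p).1
  have h2 := exp_pos 10
  unfold cE
  positivity

theorem left_ge (D : ℕ) {l : ℕ} {G : ℝ} (hl2' : (2 : ℝ) ≤ l) (hG' : G = 2 ^ l) :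
    (G ^ 2 / 2) ^ D ≤ (2 - 1 / (2 * l : ℝ)) ^ (2 * D * l) := by
  have hG0 : (0 : ℝ) < G := by rw [hG']; positivity
  have hl0 : (0 : ℝ) < l := by linarith
  have h1 : (1 : ℝ) / 2 ≤ (1 - 1 / (4 * l)) ^ (2 * l) := by
    have h2 := one_add_mul_le_pow (a := -(1 / (4 * l : ℝ))) (by
      have : (1 : ℝ) / (4 * l) ≤ 1 / 4 := by
        apply one_div_le_one_div_of_le (by norm_num)
        linarith
      linarith) (2 * l)
    have h3 : 1 + ((2 * l : ℕ) : ℝ) * -(1 / (4 * l)) = 1 / 2 := by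
      push_cast
      field_simp
      norm_num
    rw [h3] at h2
    calc (1 : ℝ) / 2 ≤ (1 + -(1 / (4 * l : ℝ))) ^ (2 * l) := h2
      _ = (1 - 1 / (4 * l)) ^ (2 * l) := by rw [← sub_eq_add_neg]
  have h4 : (G : ℝ) ^ 2 / 2 ≤ (2 - 1 / (2 * l)) ^ (2 * l) := by
    have h5 : (2 - 1 / (2 * l) : ℝ) = 2 * (1 - 1 / (4 * l)) := by
      field_simp
      ring
    have h6 : (G : ℝ) ^ 2 = 2 ^ (2 * l) := by
      rw [hG', ← pow_mul, mul_comm]
    rw [h5, mul_pow, h6, div_eq_mul_one_div]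
    exact mul_le_mul_of_nonneg_left h1 (by positivity)
  calc ((G : ℝ) ^ 2 / 2) ^ D ≤ ((2 - 1 / (2 * l)) ^ (2 * l)) ^ D :=
        pow_le_pow_left₀ (by positivity) h4 _
    _ = (2 - 1 / (2 * l)) ^ (2 * D * l) := by rw [← pow_mul]; congr 1; ring

theorem cof_ge {p n m d ν D B l G : ℕ} {K μ lam q c : ℝ} (hK1 : 1 ≤ K)
    (hcE : c = 1 / (400 * K * exp 10 * (48 * K) ^ 4)) (hμ1 : 1 ≤ μ)
    (hn0 : (0 : ℝ) < n) (hnm' : (n : ℝ) ≤ m) (hd0 : (0 : ℝ) < d)
    (hD0 : (0 : ℝ) < D) (hl0 : (0 : ℝ) < l) (hB0 : (0 : ℝ) < B) (hlam0 : 0 < lam)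
    (hlam2 : lam ≤ l) (hν : (ν : ℝ) * (1 + log μ) ^ 2 ≤ c * n ^ (p + 1))
    (hl3 : (48 * K) ^ 2 * μ * (l : ℝ) ^ 2 ≤ 2 ^ l)
    (hl4 : (2 : ℝ) ^ l ≤ 2 * exp 10 * (48 * K) ^ 4 * (μ * (1 + log μ) ^ 2))
    (hμn : μ * n ^ (p + 1) = m * d) (hB1 : (G : ℝ) * n ^ p ≤ 2 * l * K * B)
    (hGl : (48 * K) ^ 2 * μ * (l : ℝ) ^ 2 ≤ (G : ℝ))
    (hDB1 : (n : ℝ) ^ (p + 1) ≤ 48 * K * l * (D * B)) (hq : q = exp (-(lam / B))) :
    exp (-1) ^ D ≤ q ^ (ν + D * (d - 1)) := by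
  have hK0 : 0 < K := by linarith
  have hμ0 : 0 < μ := by linarith
  have h100 := exp_pos 10
  have h1 : q ^ (ν + D * (d - 1)) = exp (-(((ν + D * (d - 1) : ℕ) : ℝ) * (lam / B))) := by
    rw [hq, ← exp_nat_mul]
    congr 1
    ring
  have h2 : exp (-1) ^ D = exp (-(D : ℝ)) := by
    rw [← exp_nat_mul]
    congr 1
    ring
  rw [h1, h2, exp_le_exp, neg_le_neg_iff, mul_div_assoc', div_le_iff₀ hB0]
  have h3 : ((ν + D * (d - 1) : ℕ) : ℝ) ≤ ν + D * d := by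
    have : ν + D * (d - 1) ≤ ν + D * d :=
      Nat.add_le_add_left (Nat.mul_le_mul_left _ (Nat.sub_le _ _)) _
    exact_mod_cast this
  -- (ii) the cofactors
  have h4 : (ν : ℝ) * lam ≤ D * B / 2 := by
    have h5 : (l : ℝ) ^ 2 ≤ 2 * exp 10 * (48 * K) ^ 2 * (1 + log μ) ^ 2 := by
      have h6 : (48 * K) ^ 2 * μ * l ^ 2 ≤ 2 * exp 10 * (48 * K) ^ 4 * (μ * (1 + log μ) ^ 2) :=
        hl3.trans hl4
      have h7 : 0 < (48 * K) ^ 2 * μ := by positivity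
      refine le_of_mul_le_mul_left ?_ h7
      calc (48 * K) ^ 2 * μ * (l : ℝ) ^ 2 ≤
          2 * exp 10 * (48 * K) ^ 4 * (μ * (1 + log μ) ^ 2) := h6
        _ = (48 * K) ^ 2 * μ * (2 * exp 10 * (48 * K) ^ 2 * (1 + log μ) ^ 2) := by ring
    have h8 : 96 * K * ((ν : ℝ) * l ^ 2) ≤ n ^ (p + 1) := by
      calc 96 * K * ((ν : ℝ) * l ^ 2) ≤
            96 * K * ((ν : ℝ) * (2 * exp 10 * (48 * K) ^ 2 * (1 + log μ) ^ 2)) :=
            mul_le_mul_of_nonneg_left (mul_le_mul_of_nonneg_left h5 (by positivity))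
              (by positivity)
        _ = 192 * K * exp 10 * (48 * K) ^ 2 * ((ν : ℝ) * (1 + log μ) ^ 2) := by ring
        _ ≤ 192 * K * exp 10 * (48 * K) ^ 2 * (c * n ^ (p + 1)) :=
            mul_le_mul_of_nonneg_left hν (by positivity)
        _ = (192 * K * exp 10 * (48 * K) ^ 2 * c) * n ^ (p + 1) := by ring
        _ ≤ 1 * n ^ (p + 1) := by
            refine mul_le_mul_of_nonneg_right ?_ (by positivity)
            rw [hcE, mul_one_div, div_le_one (by positivity)]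
            exact sm1 hK1 h100
        _ = n ^ (p + 1) := one_mul _
    have h12 : 96 * K * ((ν : ℝ) * l ^ 2) ≤ 48 * K * l * (D * B) := h8.trans hDB1
    have h13 : (ν : ℝ) * l ≤ D * B / 2 := by
      have h14 : 0 < 96 * K * l := by positivity
      refine le_of_mul_le_mul_left ?_ h14
      calc 96 * K * l * ((ν : ℝ) * l) = 96 * K * ((ν : ℝ) * l ^ 2) := by ring
        _ ≤ 48 * K * l * (D * B) := h12
        _ = 96 * K * l * (D * B / 2) := by ring
    exact (mul_le_mul_of_nonneg_left hlam2 (by positivity)).trans h13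
  -- (i) the degree of the entries
  have h5 : (d : ℝ) * lam ≤ B / 2 := by
    have h6 : (48 * K) ^ 2 * μ * l ^ 2 * n ^ p ≤ 2 * l * K * B :=
      (mul_le_mul_of_nonneg_right hGl (by positivity)).trans hB1
    have h7 : (d : ℝ) ≤ μ * n ^ p := by
      have h8 : μ * n ^ p * n = m * d := by
        rw [← hμn]
        ring
      have h9 : (d : ℝ) * n ≤ μ * n ^ p * n := by
        rw [h8]
        calc (d : ℝ) * n ≤ d * m := mul_le_mul_of_nonneg_left hnm' hd0.le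
          _ = m * d := mul_comm _ _
      exact le_of_mul_le_mul_right h9 hn0
    have h10 : (48 * K) ^ 2 * l ^ 2 * (d : ℝ) ≤ 2 * l * K * B := by
      calc (48 * K) ^ 2 * l ^ 2 * (d : ℝ) ≤ (48 * K) ^ 2 * l ^ 2 * (μ * n ^ p) :=
            mul_le_mul_of_nonneg_left h7 (by positivity)
        _ = (48 * K) ^ 2 * μ * l ^ 2 * n ^ p := by ring
        _ ≤ _ := h6
    have h11 : 0 < 4 * l * K := by positivity
    refine le_of_mul_le_mul_left ?_ h11
    calc 4 * l * K * ((d : ℝ) * lam) ≤ 4 * l * K * (d * l) :=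
          mul_le_mul_of_nonneg_left (mul_le_mul_of_nonneg_left hlam2 hd0.le) (by positivity)
      _ = 4 * K * (l ^ 2 * d) := by ring
      _ ≤ (48 * K) ^ 2 * (l ^ 2 * d) := by
          exact mul_le_mul_of_nonneg_right (sm2 hK1) (by positivity)
      _ = (48 * K) ^ 2 * l ^ 2 * (d : ℝ) := by ring
      _ ≤ 2 * l * K * B := h10
      _ = 4 * l * K * (B / 2) := by ring
  calc ((ν + D * (d - 1) : ℕ) : ℝ) * lam ≤ (ν + D * d) * lam :=
        mul_le_mul_of_nonneg_right h3 hlam0.le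
    _ = ν * lam + D * (d * lam) := by ring
    _ ≤ D * B / 2 + D * (B / 2) := add_le_add h4 (mul_le_mul_of_nonneg_left h5 hD0.le)
    _ = D * B := by ring

theorem fin_step {D : ℕ} {G r : ℝ} (hG0 : 0 < G) (hr' : 1 ≤ r)
    (h1 : exp (-1) ^ D * (G ^ 2 / 2) ^ D ≤ r * (exp 1 * G / 48) ^ (2 * D)) :
    exp D ≤ r := by
  have h2 : (exp 1 * G / 48) ^ (2 * D) = ((exp 1) ^ 2 / 1152) ^ D * ((G : ℝ) ^ 2 / 2) ^ D := by
    rw [← mul_pow, pow_mul]
    congr 1
    ring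
  rw [h2, ← mul_assoc] at h1
  have h3 : 0 < ((G : ℝ) ^ 2 / 2) ^ D := by positivity
  have h4 : exp (-1) ^ D ≤ r * ((exp 1) ^ 2 / 1152) ^ D := le_of_mul_le_mul_right h1 h3
  have h5 : (exp 1) ^ 2 / 1152 ≤ exp (-1) * exp (-1) := by
    have h6 : exp 1 < 2.7182818286 := exp_one_lt_d9
    have h7 : 0 < exp 1 := exp_pos 1
    have h8 : exp (-1) * exp (-1) = (exp 1 ^ 2)⁻¹ := by
      rw [exp_neg]
      field_simp
    rw [h8, div_le_iff₀ (by norm_num), ← div_eq_inv_mul, le_div_iff₀ (by positivity)]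
    calc exp 1 ^ 2 * exp 1 ^ 2 ≤ 2.7182818286 ^ 2 * 2.7182818286 ^ 2 :=
          mul_le_mul (pow_le_pow_left₀ h7.le h6.le 2) (pow_le_pow_left₀ h7.le h6.le 2)
            (by positivity) (by positivity)
      _ ≤ 1152 := by norm_num
  have h66 : exp D ≤ r := by
    have h7 : ((exp 1) ^ 2 / 1152) ^ D ≤ (exp (-1) * exp (-1)) ^ D :=
      pow_le_pow_left₀ (by positivity) h5 _
    have h8 : exp (-1) ^ D ≤ r * (exp (-1) ^ D * exp (-1) ^ D) := by
      rw [← mul_pow]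
      exact h4.trans (mul_le_mul_of_nonneg_left h7 (by linarith))
    have h9 : exp (-1) ^ D = (exp D)⁻¹ := by
      rw [← exp_nat_mul, ← exp_neg]
      congr 1
      ring
    have h10 : 0 < exp (-1) ^ D := by positivity
    have h11 : 1 ≤ r * exp (-1) ^ D := by
      refine le_of_mul_le_mul_right ?_ h10
      rw [one_mul]
      calc exp (-1) ^ D ≤ r * (exp (-1) ^ D * exp (-1) ^ D) := h8
        _ = r * exp (-1) ^ D * exp (-1) ^ D := by ring
    rw [h9, ← div_eq_mul_inv, le_div_iff₀ (exp_pos _), one_mul] at h11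
    exact h11
  exact h66

end Pool.Agent.Helper41.SAT
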